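import Pool.Agent.EWG.StmtsC

/-!
# Squad EWG, row SWP: interchange of the sums
-/

set_option autoImplicit false

namespace Pool.Agent.EWG.H39

open Finset

theorem dvd_iff (p l : ℕ) (hp : 1 ≤ p) : l ∣ p - 1 ↔ p % l = 1 % l := by
  rw [← Nat.modEq_iff_dvd' hp]
  exact ⟨fun h => h.symm, fun h => h.symm⟩

/-- the pairs `(p, l)` -/
theorem swp : SwpStmt := by
  intro x
  have hL : ∑ p ∈ pr (Icc 3 x), Real.log p * ∑ l ∈ (p - 1).primeFactors, Real.log l =
      ∑ p ∈ pr (Icc 3 x), ∑ l ∈ (p - 1).primeFactors, Real.log p * Real.log l :=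
    Finset.sum_congr rfl fun p _ => Finset.mul_sum _ _ _
  have hR : ∑ l ∈ pr (Icc 1 x), Real.log l * Th x l =
      ∑ l ∈ pr (Icc 1 x), ∑ p ∈ (Icc 1 x).filter (fun p => p.Prime ∧ p % l = 1 % l),
        Real.log p * Real.log l := by
    refine Finset.sum_congr rfl fun l _ => ?_
    unfold Th
    rw [Finset.mul_sum]
    exact Finset.sum_congr rfl fun p _ => mul_comm _ _
  rw [hL, hR]
  refine Finset.sum_comm' (fun p l => ?_)
  rw [mem_pr, mem_pr, Finset.mem_Icc, Finset.mem_Icc, Finset.mem_filter, Finset.mem_Icc,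
    Nat.mem_primeFactors]
  constructor
  · rintro ⟨⟨⟨h3, hx⟩, hp⟩, hl, hd, h0⟩
    have hle := Nat.le_of_dvd (by omega) hd
    exact ⟨⟨⟨by omega, hx⟩, hp, (dvd_iff p l (by omega)).1 hd⟩, ⟨hl.one_lt.le, by omega⟩, hl⟩
  · rintro ⟨⟨⟨h1, hx⟩, hp, hm⟩, ⟨_, _⟩, hl⟩
    have hd := (dvd_iff p l h1).2 hm
    have hp2 := hp.two_le
    have h2 : p ≠ 2 := by
      intro h
      rw [h] at hd
      have := Nat.le_of_dvd (by omega) hd
      have := hl.two_le
      omega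
    exact ⟨⟨⟨by omega, hx⟩, hp⟩, hl, hd, by omega⟩

end Pool.Agent.EWG.H39
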